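import Pool.Agent.helper48.PR.SpecT

/-!
# Project pr:, module TE (generators of a cubic field of matrices)
-/

set_option autoImplicit false

namespace Pool.Agent.PR

open Matrix Polynomial

theorem TE_deg (F : Type) [Field F] [CharZero F] (M : Matrix (Fin 3) (Fin 3) F) (g : ℚ[X])
    (hM : M.charpoly = g.map (algebraMap ℚ F)) : g.Monic ∧ g.natDegree = 3 := by
  have h1 : (g.map (algebraMap ℚ F)).Monic := hM ▸ M.charpoly_monic
  have h2 : (g.map (algebraMap ℚ F)).natDegree = 3 := by
    rw [← hM, M.charpoly_natDegree_eq_dim]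
    simp
  refine ⟨?_, ?_⟩
  · exact Polynomial.monic_of_injective (algebraMap ℚ F).injective h1
  · rw [← h2, Polynomial.natDegree_map]

theorem TE_zero (F : Type) [Field F] [CharZero F] (M : Matrix (Fin 3) (Fin 3) F) (g : ℚ[X])
    (hM : M.charpoly = g.map (algebraMap ℚ F)) (h : ℚ[X]) (hd : g ∣ h) :
    aeval M (h.map (algebraMap ℚ F)) = 0 := by
  obtain ⟨k, rfl⟩ := hd
  rw [Polynomial.map_mul, map_mul, ← hM, Matrix.aeval_self_charpoly, zero_mul]

/-- **TE**. -/
theorem TE : TE_stmt := by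
  intro F _ _ M g hg hM q hq
  obtain ⟨hmon, hdeg⟩ := TE_deg F M g hM
  have : Fact (Irreducible g) := ⟨hg⟩
  have hfr : Module.finrank ℚ (AdjoinRoot g) = 3 := by
    rw [(AdjoinRoot.powerBasis hg.ne_zero).finrank, AdjoinRoot.powerBasis_dim, hdeg]
  have hsimple : IsSimpleOrder (Subalgebra ℚ (AdjoinRoot g)) := by
    apply Subalgebra.isSimpleOrder_of_finrank_prime
    rw [hfr]
    exact Nat.prime_three
  let κ : AdjoinRoot g := AdjoinRoot.mk g q
  rcases hsimple.eq_bot_or_eq_top (Algebra.adjoin ℚ {κ}) with h | h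
  · exfalso
    have h1 : κ ∈ Algebra.adjoin ℚ {κ} := Algebra.subset_adjoin rfl
    rw [h, Algebra.mem_bot] at h1
    obtain ⟨r, hr⟩ := h1
    have h2 : AdjoinRoot.mk g (q - C r) = 0 := by
      rw [map_sub, sub_eq_zero]
      exact hr.symm
    rw [AdjoinRoot.mk_eq_zero] at h2
    have h3 := TE_zero F M g hM _ h2
    apply hq r
    rw [Polynomial.map_sub, map_sub, Polynomial.map_C, aeval_C, sub_eq_zero] at h3
    rw [h3, Algebra.algebraMap_eq_smul_one]
    simp
  · have h1 : AdjoinRoot.root g ∈ Algebra.adjoin ℚ {κ} := by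
      rw [h]
      trivial
    rw [Algebra.adjoin_singleton_eq_range_aeval] at h1
    obtain ⟨s, hs⟩ := h1
    have h2 : AdjoinRoot.mk g (s.comp q - X) = 0 := by
      rw [map_sub, sub_eq_zero, AdjoinRoot.mk_X, ← hs]
      show AdjoinRoot.mk g (s.comp q) = aeval κ s
      have h3 : ∀ p : ℚ[X], AdjoinRoot.mk g p = aeval (AdjoinRoot.root g) p := fun p =>
        (AdjoinRoot.aeval_eq p).symm
      rw [h3, aeval_comp]
      congr 1
      rw [← h3]
    rw [AdjoinRoot.mk_eq_zero] at h2
    have h3 := TE_zero F M g hM _ h2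
    refine ⟨s, ?_⟩
    rw [Polynomial.map_sub, map_sub, Polynomial.map_X, aeval_X, sub_eq_zero, Polynomial.map_comp, aeval_comp] at h3
    exact h3.symm

end Pool.Agent.PR
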