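import Pool.Agent.helper48.PR.SpecT

/-!
# Project pr:, module TF (centralisers)
-/

set_option autoImplicit false

namespace Pool.Agent.PR

open Matrix Polynomial

theorem TF_comm {F : Type} [Field F] {A B : Matrix (Fin 3) (Fin 3) F} (h : Commute A B) (q : F[X]) :
    Commute A (aeval B q) := by
  induction q using Polynomial.induction_on' with
  | add p q hp hq =>
    rw [map_add]
    exact hp.add_right hq
  | monomial n a =>
    rw [aeval_monomial]
    have h1 : Commute A (algebraMap F (Matrix (Fin 3) (Fin 3) F) a) := (Algebra.commutes a A).symm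
    exact h1.mul_right (h.pow_right n)

/-- **TF**. -/
theorem TF (hTD : TD_stmt) (hTE : TE_stmt) : TF_stmt := by
  intro F _ _ Λ _ ρ hinj hdet htr a g hg ha c hc hc1
  have hca : c * a = a * c := by
    rw [Subgroup.mem_centralizer_singleton_iff] at hc
    exact hc
  have hρ : ∀ x y : Λ, Commute (ρ x) (ρ y) → x * y = y * x := by
    intro x y h
    apply hinj
    rw [map_mul, map_mul]
    exact h
  have hρ' : ∀ x y : Λ, x * y = y * x → Commute (ρ x) (ρ y) := by
    intro x y h
    show ρ x * ρ y = ρ y * ρ x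
    rw [← map_mul, h, map_mul]
  obtain ⟨q, hq⟩ := hTD 3 F (ρ a) (ρ c) g hg ha (hρ' c a hca) (fun j => by
    obtain ⟨t, ht⟩ := htr (c * a ^ j)
    refine ⟨t, ?_⟩
    rw [← map_pow, ← map_mul, ht]
    simp)
  have hns : ∀ r : ℚ, aeval (ρ a) (q.map (algebraMap ℚ F)) ≠ (r : F) • (1 : Matrix (Fin 3) (Fin 3) F) := by
    intro r hr
    rw [← hq] at hr
    have h1 := hdet c
    rw [hr, Matrix.det_smul, Matrix.det_one, mul_one, Fintype.card_fin] at h1
    have h2 : r ^ 3 = 1 := by exact_mod_cast h1
    have h3 : r = 1 := by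
      have h4 : (r - 1) * (r ^ 2 + r + 1) = 0 := by ring_nf; linarith
      rcases mul_eq_zero.mp h4 with h5 | h5
      · linarith
      · nlinarith [sq_nonneg (r + 1 / 2)]
    apply hc1
    apply hinj
    rw [hr, h3, map_one]
    simp
  obtain ⟨s, hs⟩ := hTE F (ρ a) g hg ha q hns
  rw [← hq] at hs
  ext d
  rw [Subgroup.mem_centralizer_singleton_iff, Subgroup.mem_centralizer_singleton_iff]
  constructor
  · intro h
    have h1 := TF_comm (hρ' _ _ h) (s.map (algebraMap ℚ F))
    rw [← hs] at h1
    exact hρ _ _ h1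
  · intro h
    have h1 := TF_comm (hρ' _ _ h) (q.map (algebraMap ℚ F))
    rw [← hq] at h1
    exact hρ _ _ h1

end Pool.Agent.PR
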