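import Pool.Agent.helper5.PR.SpecK

/-!
# Project pr:, module K-BLK

Block form of a representation over a finitely generated algebra.
-/

set_option autoImplicit false

namespace Pool.Agent.PR

open Matrix

theorem K_BLK_entries {Λ : Type} [Group Λ] {F : Type} [Field F] {B : Type} [CommRing B] [Algebra B F]
    {n : ℕ} (r : Λ →* GL (Fin n) F) (T : Finset Λ) (hT : Subgroup.closure (T : Set Λ) = ⊤)
    (A : Subalgebra B F)
    (hA : ∀ t ∈ T, ∀ i j, ((r t : Matrix (Fin n) (Fin n) F)) i j ∈ A ∧
      ((r t⁻¹ : Matrix (Fin n) (Fin n) F)) i j ∈ A) (l : Λ) (i j : Fin n) :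
    ((r l : Matrix (Fin n) (Fin n) F)) i j ∈ A := by
  let H : Subgroup Λ :=
    { carrier := {l | ∀ i j, ((r l : Matrix (Fin n) (Fin n) F)) i j ∈ A ∧
        ((r l⁻¹ : Matrix (Fin n) (Fin n) F)) i j ∈ A}
      one_mem' := by
        intro i j
        rw [inv_one, map_one, Units.val_one, Matrix.one_apply]
        split_ifs
        · exact ⟨A.one_mem, A.one_mem⟩
        · exact ⟨A.zero_mem, A.zero_mem⟩
      mul_mem' := by
        intro a b ha hb i j
        refine ⟨?_, ?_⟩
        · rw [map_mul, Units.val_mul, Matrix.mul_apply]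
          exact A.sum_mem fun k _ => A.mul_mem (ha i k).1 (hb k j).1
        · rw [_root_.mul_inv_rev, map_mul, Units.val_mul, Matrix.mul_apply]
          exact A.sum_mem fun k _ => A.mul_mem (hb i k).2 (ha k j).2
      inv_mem' := by
        intro a ha i j
        refine ⟨(ha i j).2, ?_⟩
        rw [inv_inv]
        exact (ha i j).1 }
  have h1 : Subgroup.closure (T : Set Λ) ≤ H := by
    rw [Subgroup.closure_le]
    intro t ht
    exact fun i j => hA t ht i j
  have h2 : l ∈ H := h1 (by rw [hT]; trivial)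
  exact (h2 i j).1

/-- **K-BLK**. -/
theorem K_BLK (h : K_REG_stmt) : K_BLK_stmt := by
  intro ℓ _ n Λ _ hFG r hint
  classical
  obtain ⟨T, hT⟩ := (Group.fg_def.mp hFG)
  let S : Finset (Om ℓ) := (T ×ˢ (Finset.univ : Finset (Fin n × Fin n))).image
      (fun p => (r p.1 : Matrix (Fin n) (Fin n) (Om ℓ)) p.2.1 p.2.2) ∪
    (T ×ˢ (Finset.univ : Finset (Fin n × Fin n))).image
      (fun p => (r p.1⁻¹ : Matrix (Fin n) (Fin n) (Om ℓ)) p.2.1 p.2.2)
  have hS : ∀ s ∈ S, IsIntegral ℤ_[ℓ] s := by
    intro s hs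
    simp only [S, Finset.mem_union, Finset.mem_image] at hs
    rcases hs with ⟨p, _, rfl⟩ | ⟨p, _, rfl⟩
    · exact hint _ _ _
    · exact hint _ _ _
  obtain ⟨m, rr, rr', L, hrr, hL⟩ := h ℓ S hS
  have hmem : ∀ l i j, (r l : Matrix (Fin n) (Fin n) (Om ℓ)) i j ∈
      Algebra.adjoin ℤ_[ℓ] (S : Set (Om ℓ)) := by
    intro l i j
    refine K_BLK_entries r T hT _ ?_ l i j
    intro t ht i j
    refine ⟨Algebra.subset_adjoin ?_, Algebra.subset_adjoin ?_⟩
    · simp only [S, Finset.coe_union, Set.mem_union]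
      left
      exact Finset.mem_coe.mpr (Finset.mem_image.mpr ⟨(t, (i, j)), by simp [ht], rfl⟩)
    · simp only [S, Finset.coe_union, Set.mem_union]
      right
      exact Finset.mem_coe.mpr (Finset.mem_image.mpr ⟨(t, (i, j)), by simp [ht], rfl⟩)
  let A := Algebra.adjoin ℤ_[ℓ] (S : Set (Om ℓ))
  let f0 : Λ →* Matrix (Fin n × Fin m) (Fin n × Fin m) ℤ_[ℓ] :=
    { toFun := fun l => Matrix.of fun p q => L ⟨(r l : Matrix (Fin n) (Fin n) (Om ℓ)) p.1 q.1, hmem l p.1 q.1⟩ p.2 q.2
      map_one' := by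
        ext ⟨i, k⟩ ⟨j, k'⟩
        simp only [Matrix.of_apply, Matrix.one_apply, Prod.mk.injEq]
        by_cases hij : i = j
        · subst hij
          have h1 : (⟨(r 1 : Matrix (Fin n) (Fin n) (Om ℓ)) i i, hmem 1 i i⟩ : A) = 1 := by
            apply Subtype.ext
            simp
          have h2 : L ⟨(r 1 : Matrix (Fin n) (Fin n) (Om ℓ)) i i, hmem 1 i i⟩ = 1 := by
            exact (congrArg L h1).trans (map_one L)
          rw [h2, Matrix.one_apply]
          simp
        · have h1 : (⟨(r 1 : Matrix (Fin n) (Fin n) (Om ℓ)) i j, hmem 1 i j⟩ : A) = 0 := by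
            apply Subtype.ext
            simp [hij]
          have h2 : L ⟨(r 1 : Matrix (Fin n) (Fin n) (Om ℓ)) i j, hmem 1 i j⟩ = 0 := by
            exact (congrArg L h1).trans (map_zero L)
          rw [h2]
          simp [hij]
      map_mul' := by
        intro a b
        ext ⟨i, k⟩ ⟨j, k'⟩
        simp only [Matrix.of_apply, Matrix.mul_apply]
        have h1 : (⟨(r (a * b) : Matrix (Fin n) (Fin n) (Om ℓ)) i j, hmem (a * b) i j⟩ : A) =
            ∑ p : Fin n, (⟨(r a : Matrix (Fin n) (Fin n) (Om ℓ)) i p, hmem a i p⟩ : A) *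
              ⟨(r b : Matrix (Fin n) (Fin n) (Om ℓ)) p j, hmem b p j⟩ := by
          apply Subtype.ext
          push_cast
          rw [map_mul, Units.val_mul, Matrix.mul_apply]
        have h2 : L ⟨(r (a * b) : Matrix (Fin n) (Fin n) (Om ℓ)) i j, hmem (a * b) i j⟩ =
            ∑ p : Fin n, L ⟨(r a : Matrix (Fin n) (Fin n) (Om ℓ)) i p, hmem a i p⟩ *
              L ⟨(r b : Matrix (Fin n) (Fin n) (Om ℓ)) p j, hmem b p j⟩ := by
          refine (congrArg L h1).trans ?_
          rw [map_sum]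
          exact Finset.sum_congr rfl fun p _ => map_mul L _ _
        have h3 : L ⟨(r (a * b) : Matrix (Fin n) (Fin n) (Om ℓ)) i j, hmem (a * b) i j⟩ k k' =
            ∑ p : Fin n, ∑ q : Fin m, L ⟨(r a : Matrix (Fin n) (Fin n) (Om ℓ)) i p, hmem a i p⟩ k q *
              L ⟨(r b : Matrix (Fin n) (Fin n) (Om ℓ)) p j, hmem b p j⟩ q k' := by
          refine (congrFun (congrFun h2 k) k').trans ?_
          rw [Matrix.sum_apply]
          exact Finset.sum_congr rfl fun p _ => Matrix.mul_apply
        rw [Fintype.sum_prod_type]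
        exact h3 }
  let R : Matrix (Fin n) (Fin n × Fin m) (Om ℓ) := Matrix.of fun i p => if i = p.1 then rr p.2 else 0
  let R' : Matrix (Fin n × Fin m) (Fin n) (Om ℓ) := Matrix.of fun p i => if i = p.1 then rr' p.2 else 0
  refine ⟨m, R, R', f0.toHomUnits, ?_, ?_⟩
  · ext i j
    rw [Matrix.mul_apply, Fintype.sum_prod_type, Finset.sum_eq_single i]
    · by_cases hij : i = j
      · subst hij
        have h1 := hrr
        rw [dotProduct] at h1
        simpa [R, R'] using h1
      · have hji : ¬ j = i := fun h => hij h.symm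
        simp [R, R', hij, hji]
    · intro p _ hp
      have hip : ¬ i = p := fun h => hp h.symm
      simp [R, hip]
    · simp
  · intro l
    ext i ⟨j, k'⟩
    rw [Matrix.mul_apply, Fintype.sum_prod_type, Finset.sum_eq_single i, Matrix.mul_apply,
      Finset.sum_eq_single j]
    · have h1 := congrFun (hL ⟨(r l : Matrix (Fin n) (Fin n) (Om ℓ)) i j, hmem l i j⟩) k'
      simp only [vecMul, dotProduct, Matrix.map_apply, Pi.smul_apply, smul_eq_mul] at h1
      simpa [R, f0] using h1
    · intro p _ hp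
      simp [R, hp]
    · simp
    · intro p _ hp
      have hip : ¬ i = p := fun h => hp h.symm
      simp [R, hip]
    · simp

end Pool.Agent.PR
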