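import Pool.Agent.helper17.PR.SpecN

/-!
# Project pr:, module N_SPL (bound for the action of the lower central series)
-/

set_option autoImplicit false

namespace Pool.Agent.PR

open Module

section
variable {K V Q : Type} [Field K] [IsAlgClosed K] [AddCommGroup V] [Module K V] [FiniteDimensional K V]
  [Group Q]

theorem N_SPL_glue (hRES : N_RES_stmt) (hFIT : N_FIT_stmt) (hnil : Group.IsNilpotent Q)
    (ρ : Q →* Module.End K V) (hT : TriS ρ) (x : Q)
    (hx : ¬ ∃ a : K, IsNilpotent (ρ x - a • (1 : Module.End K V))) (t : Q)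
    (hrec : ∀ (W : Submodule K V) (hW : InvS ρ W), finrank K W < finrank K V → TriS (resS ρ W hW) →
      resS ρ W hW t = 1) : ρ t = 1 := by
  have hle : (⨆ l : K, (ρ x).maxGenEigenspace l) ≤ LinearMap.ker (ρ t - 1) := by
    refine iSup_le fun l => ?_
    have hinv : InvS ρ ((ρ x).maxGenEigenspace l) := hFIT K V Q hnil ρ hT x l
    have hne : (ρ x).maxGenEigenspace l ≠ ⊤ := by
      intro htop
      apply hx
      refine ⟨l, finrank K V, ?_⟩
      ext v
      have hv : v ∈ (ρ x).maxGenEigenspace l := by rw [htop]; trivial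
      rw [Module.End.maxGenEigenspace_eq_genEigenspace_finrank, Module.End.mem_genEigenspace_nat] at hv
      exact hv
    have h1 := hrec _ hinv (Submodule.finrank_lt hne) (hRES K V Q ρ _ hinv hT).1
    intro w hw
    have h2 := LinearMap.congr_fun h1 ⟨w, hw⟩
    have h3 := congrArg Subtype.val h2
    rw [LinearMap.mem_ker, LinearMap.sub_apply, sub_eq_zero]
    exact h3
  rw [Module.End.iSup_maxGenEigenspace_eq_top] at hle
  ext v
  have h4 : v ∈ LinearMap.ker (ρ t - 1) := hle trivial
  rw [LinearMap.mem_ker, LinearMap.sub_apply, sub_eq_zero] at h4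
  exact h4

end

theorem N_SPL_one (hRES : N_RES_stmt) (hFIT : N_FIT_stmt) (hUNI : N_UNI_stmt) (K : Type) [Field K]
    [IsAlgClosed K] (Q : Type) [Group Q] (hnil : Group.IsNilpotent Q) (m : ℕ) :
    ∀ (V : Type) [AddCommGroup V] [Module K V] [FiniteDimensional K V], finrank K V = m →
      ∀ ρ : Q →* Module.End K V, TriS ρ →
        ∀ t ∈ (⊤ : Subgroup Q).lowerCentralSeries (max m 2 - 1), ρ t = 1 := by
  induction m using Nat.strong_induction_on with
  | _ m ih =>
    intro V _ _ _ hm ρ hT t ht
    by_cases h : ∀ g : Q, ∃ a : K, IsNilpotent (ρ g - a • (1 : Module.End K V))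
    · have h1 := hUNI K V Q ρ hT h (max m 2 - 1) (by omega) t ht
      have h2 : finrank K (LinearMap.range (ρ t - 1)) = 0 := by
        rw [hm] at h1
        omega
      rw [Submodule.finrank_eq_zero, LinearMap.range_eq_bot, sub_eq_zero] at h2
      exact h2
    · push Not at h
      obtain ⟨x, hx⟩ := h
      refine N_SPL_glue hRES hFIT hnil ρ hT x (by push Not; exact hx) t ?_
      intro W hW hlt hTW
      refine ih (finrank K W) (by rw [← hm]; exact hlt) W rfl _ hTW t ?_
      refine (⊤ : Subgroup Q).lowerCentralSeries_antitone ?_ ht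
      omega

/-- **N_SPL**. -/
theorem N_SPL (hRES : N_RES_stmt) (hFIT : N_FIT_stmt) (hUNI : N_UNI_stmt) : N_SPL_stmt := by
  intro K V _ _ _ _ _ Q _ hnil ρ hT
  refine ⟨N_SPL_one hRES hFIT hUNI K Q hnil _ V rfl ρ hT, ?_⟩
  intro h3 t ht
  by_cases h : ∀ g : Q, ∃ a : K, IsNilpotent (ρ g - a • (1 : Module.End K V))
  · have h1 := hUNI K V Q ρ hT h (finrank K V - 2) (by omega) t ht
    omega
  · push Not at h
    obtain ⟨x, hx⟩ := h
    have h4 : ρ t = 1 := by
      refine N_SPL_glue hRES hFIT hnil ρ hT x (by push Not; exact hx) t ?_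
      intro W hW hlt hTW
      refine N_SPL_one hRES hFIT hUNI K Q hnil (finrank K W) W rfl _ hTW t ?_
      refine (⊤ : Subgroup Q).lowerCentralSeries_antitone ?_ ht
      omega
    rw [h4, sub_self, LinearMap.range_zero, finrank_bot]
    omega

end Pool.Agent.PR
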