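import Pool.Agent.helper17.PR.SpecN

/-!
# Project pr:, module N_KB (linear algebra in dimension at most four)
-/

set_option autoImplicit false

namespace Pool.Agent.PR

open Module

section
variable {K V : Type} [Field K] [AddCommGroup V] [Module K V] [FiniteDimensional K V]

/-- rank and nullity on a subspace -/
theorem N_KB_rn (N : Module.End K V) (S : Submodule K V) :
    finrank K (S.map N) + finrank K (LinearMap.ker N ⊓ S : Submodule K V) = finrank K S := by
  have h1 := LinearMap.finrank_range_add_finrank_ker (N.domRestrict S)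
  have h2 : LinearMap.range (N.domRestrict S) = S.map N := by
    rw [LinearMap.range_domRestrict]
  have h3 : finrank K (LinearMap.ker (N.domRestrict S)) = finrank K (LinearMap.ker N ⊓ S : Submodule K V) := by
    rw [LinearMap.ker_domRestrict, ← Submodule.finrank_map_subtype_eq, Submodule.map_comap_subtype, inf_comm]
  rw [← h1, h2, h3]

theorem N_KB_map (N : Module.End K V) (i : ℕ) :
    (LinearMap.range (N ^ i)).map N = LinearMap.range (N ^ (i + 1)) := by
  rw [← LinearMap.range_comp, pow_succ']
  rfl

end

/-- **N_KB**. -/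
theorem N_KB : N_KB_stmt := by
  intro K V _ _ _ _ N h4 hN h2
  classical
  let r : ℕ → ℕ := fun i => finrank K (LinearMap.range (N ^ i))
  let d : ℕ → ℕ := fun i => finrank K (LinearMap.ker N ⊓ LinearMap.range (N ^ i) : Submodule K V)
  have hrd : ∀ i, r (i + 1) + d i = r i := by
    intro i
    have h := N_KB_rn N (LinearMap.range (N ^ i))
    rw [N_KB_map] at h
    exact h
  have hr0 : r 0 ≤ 4 := by
    have h : r 0 = finrank K V := by
      simp only [r]
      rw [pow_zero, Module.End.one_eq_id, LinearMap.range_id, finrank_top]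
    rw [h]
    exact h4
  have hr1 : 2 ≤ r 1 := by
    simp only [r]
    rw [pow_one]
    exact h2
  have hle : ∀ i, LinearMap.range (N ^ (i + 1)) ≤ LinearMap.range (N ^ i) := by
    intro i
    rintro _ ⟨w, rfl⟩
    exact ⟨N w, by rw [pow_succ]; rfl⟩
  have hdanti : ∀ i, d (i + 1) ≤ d i := by
    intro i
    exact Submodule.finrank_mono (inf_le_inf_left _ (hle i))
  have hranti : ∀ i, r i ≤ r 0 := by
    intro i
    induction i with
    | zero => exact le_refl _
    | succ i ih => exact le_trans (by have := hrd i; omega) ih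
  have hex : ∃ s, N ^ s = 0 := hN
  obtain ⟨s, hs, hmin⟩ : ∃ s, N ^ s = 0 ∧ ∀ m < s, N ^ m ≠ 0 :=
    ⟨Nat.find hex, Nat.find_spec hex, fun m hm => Nat.find_min hex hm⟩
  have hrs : r s = 0 := by
    simp only [r]
    rw [hs, LinearMap.range_zero, finrank_bot]
  have hs2 : 2 ≤ s := by
    by_contra hcon
    have h5 : s = 0 ∨ s = 1 := by omega
    rcases h5 with h5 | h5
    · subst h5
      have := hranti 1
      omega
    · subst h5
      omega
  obtain ⟨j, rfl⟩ : ∃ j, s = j + 2 := ⟨s - 2, by omega⟩
  have hj1 : N ^ (j + 1) ≠ 0 := hmin _ (by omega)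
  have hrj1 : 1 ≤ r (j + 1) := by
    rw [Nat.one_le_iff_ne_zero]
    intro h
    apply hj1
    have h6 : LinearMap.range (N ^ (j + 1)) = ⊥ := Submodule.finrank_eq_zero.mp h
    exact LinearMap.range_eq_bot.mp h6
  have hNN : ∀ v ∈ LinearMap.range (N ^ j), N (N v) = 0 := by
    rintro _ ⟨w, rfl⟩
    have h7 : N (N ((N ^ j) w)) = (N ^ (j + 2)) w := by
      rw [pow_succ', pow_succ']
      rfl
    rw [h7, hs]
    rfl
  refine ⟨j, _, rfl, hNN, ?_, ?_⟩
  · rw [N_KB_map]
    intro h
    exact hj1 (LinearMap.range_eq_bot.mp h)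
  · have hsub : (LinearMap.range (N ^ j)).map N ≤ LinearMap.ker N ⊓ LinearMap.range (N ^ j) := by
      rw [le_inf_iff]
      refine ⟨?_, ?_⟩
      · rintro _ ⟨v, hv, rfl⟩
        exact hNN v hv
      · rw [N_KB_map]
        exact hle j
    have hdim : finrank K (LinearMap.ker N ⊓ LinearMap.range (N ^ j) : Submodule K V) ≤
        finrank K ((LinearMap.range (N ^ j)).map N) := by
      rw [N_KB_map]
      show d j ≤ r (j + 1)
      have hj := hrd j
      by_contra hcon
      rcases Nat.eq_zero_or_pos j with hj0 | hj0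
      · subst hj0
        simp only [Nat.zero_add] at *
        omega
      · obtain ⟨i, rfl⟩ : ∃ i, j = i + 1 := ⟨j - 1, by omega⟩
        have h8 := hrd i
        have h9 := hdanti i
        have h10 := hranti i
        omega
    rw [Submodule.eq_of_le_of_finrank_le hsub hdim]

end Pool.Agent.PR
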